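import Pool.Agent.Helper90.MT.StA

/-!
Common lemmas for the modules A2, A7, A8 of project MT (sigma > 1 only).
-/

namespace Pool.Agent.Helper52.MTC

open Finset Complex
open Pool.Agent.Helper90.MT
open Pool.Agent.Helper2 (chFun prFun)

theorem Lk_zero {q : ℕ} (χ : DirichletCharacter ℂ q) :
    Lk χ 0 = fun n : ℕ => χ (n : ZMod q) := by
  funext n
  simp [Lk]

theorem zeta_partial (σ : ℝ) (hσ : 1 < σ) (N : ℕ) :
    ∑ n ∈ range N, ((n + 1 : ℕ) : ℝ) ^ (-σ) ≤ 1 + 1 / (σ - 1) := by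
  have h0 : (0 : ℝ) < 1 / (σ - 1) := by
    have : 0 < σ - 1 := by linarith
    positivity
  rcases Nat.eq_zero_or_pos N with rfl | hN
  · simp
    linarith [inv_eq_one_div (σ - 1)]
  obtain ⟨K, rfl⟩ : ∃ K, N = K + 1 := ⟨N - 1, by omega⟩
  rw [Finset.sum_range_succ']
  have h1 : ∑ k ∈ range K, ((k + 1 + 1 : ℕ) : ℝ) ^ (-σ) ≤ 1 / (σ - 1) := by
    have hanti : AntitoneOn (fun x : ℝ => x ^ (-σ)) (Set.Icc (1 : ℝ) (1 + (K : ℕ))) := by
      intro x hx y hy hxy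
      exact Real.rpow_le_rpow_of_nonpos (by linarith [hx.1]) hxy (by linarith)
    have h2 := AntitoneOn.sum_le_integral hanti
    have h3 : ∫ x in (1 : ℝ)..(1 + (K : ℕ)), x ^ (-σ) ≤ 1 / (σ - 1) := by
      rw [integral_rpow]
      · have h4 : (0 : ℝ) ≤ (1 + (K : ℝ)) ^ (-σ + 1) := by positivity
        have h5 : (-σ + 1) = -(σ - 1) := by ring
        rw [Real.one_rpow, h5, div_neg, ← neg_div, h5.symm]
        have : 0 < σ - 1 := by linarith
        rw [div_le_div_iff_of_pos_right this]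
        linarith
      · right
        refine ⟨by linarith, ?_⟩
        rw [Set.uIcc_of_le (by linarith [Nat.cast_nonneg (α := ℝ) K])]
        intro h
        linarith [h.1]
    refine le_trans (le_of_eq ?_) (h2.trans h3)
    refine Finset.sum_congr rfl fun k _ => ?_
    congr 1
    push_cast
    ring
  have h6 : (((0 + 1 : ℕ) : ℝ)) ^ (-σ) = 1 := by simp
  rw [h6]
  linarith

theorem norm_LSeries_le (f : ℕ → ℂ) (hf : ∀ n, ‖f n‖ ≤ 1) (s : ℂ) (hs : 1 < s.re) :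
    ‖LSeries f s‖ ≤ 1 + 1 / (s.re - 1) := by
  have hn : ∀ n, ‖LSeries.term f s n‖ ≤ if n = 0 then 0 else (n : ℝ) ^ (-s.re) := by
    intro n
    rw [LSeries.norm_term_eq]
    split_ifs with h
    · exact le_rfl
    · rw [Real.rpow_neg (Nat.cast_nonneg n), div_eq_mul_inv]
      exact mul_le_of_le_one_left (by positivity) (hf n)
  have hpart : ∀ N : ℕ, ∑ n ∈ range N, ‖LSeries.term f s n‖ ≤ 1 + 1 / (s.re - 1) := by
    intro N
    refine (Finset.sum_le_sum fun n _ => hn n).trans ?_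
    rcases Nat.eq_zero_or_pos N with rfl | hN
    · have : 0 < s.re - 1 := by linarith
      simp only [range_zero, sum_empty]
      positivity
    obtain ⟨K, rfl⟩ : ∃ K, N = K + 1 := ⟨N - 1, by omega⟩
    rw [Finset.sum_range_succ']
    simp only [Nat.add_eq_zero_iff, one_ne_zero, and_false, if_false, if_true, add_zero]
    exact zeta_partial s.re hs K
  have hsum : Summable fun n => ‖LSeries.term f s n‖ :=
    summable_of_sum_range_le (fun n => norm_nonneg _) hpart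
  rw [LSeries]
  exact (norm_tsum_le_tsum_norm hsum).trans (Real.tsum_le_of_sum_range_le (fun n => norm_nonneg _) hpart)

theorem norm_LSeries_le' (f : ℕ → ℂ) (hf : ∀ n, ‖f n‖ ≤ 1) (s : ℂ) (hs : 1 < s.re)
    (hs2 : s.re ≤ 2) : ‖LSeries f s‖ ≤ 2 / (s.re - 1) := by
  refine (norm_LSeries_le f hf s hs).trans ?_
  have : 0 < s.re - 1 := by linarith
  rw [le_div_iff₀ this, add_mul, one_mul, div_mul_cancel₀ _ this.ne']
  linarith

theorem norm_Lk_zero_le {q : ℕ} (χ : DirichletCharacter ℂ q) (s : ℂ) (hs : 1 < s.re)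
    (hs2 : s.re ≤ 2) : ‖LSeries (Lk χ 0) s‖ ≤ 2 / (s.re - 1) := by
  apply norm_LSeries_le' _ _ s hs hs2
  intro n
  rw [Lk_zero]
  exact χ.norm_le_one _

open scoped ArithmeticFunction.Moebius in
/-- lower bound, useful only away from `1` -/
theorem le_norm_Lk_zero {q : ℕ} (χ : DirichletCharacter ℂ q) (s : ℂ) (hs : 1 < s.re)
    (hs2 : s.re ≤ 2) : (s.re - 1) / 2 ≤ ‖LSeries (Lk χ 0) s‖ := by
  have h1 := DirichletCharacter.LSeries.mul_mu_eq_one χ hs
  have h2 : ‖LSeries ((fun n : ℕ => χ (n : ZMod q)) * fun n : ℕ => ((μ n : ℤ) : ℂ)) s‖ ≤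
      2 / (s.re - 1) := by
    apply norm_LSeries_le' _ _ s hs hs2
    intro n
    simp only [Pi.mul_apply, norm_mul]
    have h3 : ‖((μ n : ℤ) : ℂ)‖ ≤ 1 := by
      rw [Complex.norm_intCast]
      exact_mod_cast ArithmeticFunction.abs_moebius_le_one
    calc _ ≤ 1 * 1 := mul_le_mul (χ.norm_le_one _) h3 (norm_nonneg _) zero_le_one
      _ = 1 := one_mul 1
  have h4 : ‖LSeries (fun n : ℕ => χ (n : ZMod q)) s‖ *
      ‖LSeries ((fun n : ℕ => χ (n : ZMod q)) * fun n : ℕ => ((μ n : ℤ) : ℂ)) s‖ = 1 := by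
    rw [← norm_mul, h1, norm_one]
  rw [Lk_zero]
  have h5 : 0 < s.re - 1 := by linarith
  have h6 : 1 ≤ ‖LSeries (fun n : ℕ => χ (n : ZMod q)) s‖ * (2 / (s.re - 1)) :=
    h4.symm.le.trans (mul_le_mul_of_nonneg_left h2 (norm_nonneg _))
  rw [mul_div_assoc', le_div_iff₀ h5, one_mul] at h6
  linarith

theorem abscissa_lt {q : ℕ} [NeZero q] (χ : DirichletCharacter ℂ q) (s : ℂ) (hs : 1 < s.re) :
    LSeries.abscissaOfAbsConv (Lk χ 0) < s.re := by
  rw [Lk_zero, DirichletCharacter.absicssaOfAbsConv_eq_one (NeZero.ne q) χ]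
  exact_mod_cast hs

theorem logMul_Lk {q : ℕ} (χ : DirichletCharacter ℂ q) (k : ℕ) :
    LSeries.logMul (Lk χ k) = Lk χ (k + 1) := by
  funext n
  simp only [LSeries.logMul, Lk, pow_succ, Complex.natCast_log]
  ring

theorem hasDerivAt {q : ℕ} [NeZero q] (χ : DirichletCharacter ℂ q) (s : ℂ) (hs : 1 < s.re) :
    HasDerivAt (LSeries (Lk χ 0)) (-LSeries (Lk χ 1) s) s := by
  have h := LSeries_hasDerivAt (abscissa_lt χ s hs)
  rwa [logMul_Lk] at h

/-- horizontal Lipschitz bound -/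
theorem lip_sigma {q : ℕ} [NeZero q] (χ : DirichletCharacter ℂ q) (t D : ℝ)
    (hD : ∀ σ : ℝ, 1 < σ → σ ≤ 2 → ‖LSeries (Lk χ 1) (σ + t * I)‖ ≤ D) (a b : ℝ)
    (ha : 1 < a) (ha2 : a ≤ 2) (hb : 1 < b) (hb2 : b ≤ 2) :
    ‖LSeries (Lk χ 0) (b + t * I) - LSeries (Lk χ 0) (a + t * I)‖ ≤ D * |b - a| := by
  have hconv : Convex ℝ (Set.Ioc (1 : ℝ) 2) := convex_Ioc 1 2
  have h := Convex.norm_image_sub_le_of_norm_hasDerivWithin_le
    (f := fun u : ℝ => LSeries (Lk χ 0) (u + t * I)) (f' := fun u : ℝ => -LSeries (Lk χ 1) (u + t * I))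
    (C := D) (s := Set.Ioc (1 : ℝ) 2) ?_ ?_ hconv (⟨ha, ha2⟩ : a ∈ Set.Ioc (1 : ℝ) 2)
    (⟨hb, hb2⟩ : b ∈ Set.Ioc (1 : ℝ) 2)
  · simpa [Real.norm_eq_abs] using h
  · intro u hu
    have h1 : HasDerivAt (fun u : ℝ => (u : ℂ) + t * I) 1 u :=
      (Complex.ofRealCLM.hasDerivAt (x := u)).add_const _
    have h2 := (hasDerivAt χ ((u : ℂ) + t * I) (by simpa using hu.1)).scomp u h1
    simpa [Function.comp_def] using h2.hasDerivWithinAt
  · intro u hu
    rw [norm_neg]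
    exact hD u hu.1 hu.2

/-- vertical Lipschitz bound -/
theorem lip_t {q : ℕ} [NeZero q] (χ : DirichletCharacter ℂ q) (σ t D : ℝ) (hσ : 1 < σ)
    (hD : ∀ u : ℝ, |u| ≤ |t| → ‖LSeries (Lk χ 1) (σ + u * I)‖ ≤ D) :
    ‖LSeries (Lk χ 0) (σ + t * I) - LSeries (Lk χ 0) (σ : ℂ)‖ ≤ D * |t| := by
  have hconv : Convex ℝ (Set.Icc (-|t|) |t|) := convex_Icc _ _
  have h := Convex.norm_image_sub_le_of_norm_hasDerivWithin_le
    (f := fun u : ℝ => LSeries (Lk χ 0) (σ + u * I))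
    (f' := fun u : ℝ => I * (-LSeries (Lk χ 1) (σ + u * I)))
    (C := D) (s := Set.Icc (-|t|) |t|) ?_ ?_ hconv
    (⟨by linarith [abs_nonneg t], abs_nonneg t⟩ : (0 : ℝ) ∈ Set.Icc (-|t|) |t|)
    (⟨neg_abs_le t, le_abs_self t⟩ : t ∈ Set.Icc (-|t|) |t|)
  · simpa [Real.norm_eq_abs] using h
  · intro u _
    have h1 : HasDerivAt (fun u : ℝ => (σ : ℂ) + u * I) I u := by
      have := ((Complex.ofRealCLM.hasDerivAt (x := u)).mul_const I).const_add (σ : ℂ)
      simpa using this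
    have h2 := (hasDerivAt χ ((σ : ℂ) + u * I) (by simpa using hσ)).scomp u h1
    simpa [Function.comp_def] using h2.hasDerivWithinAt
  · intro u hu
    rw [norm_mul, norm_neg, Complex.norm_I, one_mul]
    exact hD u (abs_le.2 hu)

end Pool.Agent.Helper52.MTC
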