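import Pool.Agent.Helper85.IW.Statements
set_option autoImplicit false
set_option maxSynthPendingDepth 3

/-!
Module E3: `U ≤ C^p r^p - s^p` in region 1 (for helper85, MP_3dd6d4_an).
-/

namespace Helper52.IW.M_E3

open Helper85.IW Real Set

/-- The derivative of `J`. -/
noncomputable def phi (p C z : ℝ) : ℝ :=
  p * (1 + 1 / C) - p * (p - 2) * z / (3 * C) - p / C * (1 + z / C) ^ (p - 1)
    - p * (1 - z) ^ (p - 1)

noncomputable def JJ (p C z : ℝ) : ℝ :=
  p * (1 + 1 / C) * z - p * (p - 2) * z ^ 2 / (6 * C) - (1 + z / C) ^ p + (1 - z) ^ p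

theorem hasDerivAt_JJ (p C z : ℝ) (hp : 2 < p) (hC : 0 < C) :
    HasDerivAt (JJ p C) (phi p C z) z := by
  have h1 : HasDerivAt (fun z : ℝ => p * (1 + 1 / C) * z) (p * (1 + 1 / C)) z := by
    simpa using (hasDerivAt_id z).const_mul (p * (1 + 1 / C))
  have h2 : HasDerivAt (fun z : ℝ => p * (p - 2) * z ^ 2 / (6 * C))
      (p * (p - 2) * z / (3 * C)) z := by
    have := ((hasDerivAt_pow 2 z).const_mul (p * (p - 2))).div_const (6 * C)
    refine this.congr_deriv ?_
    push_cast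
    field_simp
    ring
  have h3 : HasDerivAt (fun z : ℝ => (1 + z / C) ^ p) (p / C * (1 + z / C) ^ (p - 1)) z := by
    have h4 : HasDerivAt (fun z : ℝ => 1 + z / C) (1 / C) z :=
      ((hasDerivAt_id z).div_const C).const_add 1
    have := h4.rpow_const (p := p) (Or.inr (by linarith))
    refine this.congr_deriv ?_
    ring
  have h5 : HasDerivAt (fun z : ℝ => (1 - z) ^ p) (-(p * (1 - z) ^ (p - 1))) z := by
    have h4 : HasDerivAt (fun z : ℝ => 1 - z) (-1) z := by
      simpa using (hasDerivAt_id z).const_sub 1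
    have := h4.rpow_const (p := p) (Or.inr (by linarith))
    refine this.congr_deriv ?_
    ring
  have := ((h1.sub h2).sub h3).add h5
  refine this.congr_deriv ?_
  unfold phi
  ring

/-- `phi` is concave with value zero at zero. -/
theorem phi_scale (p C t y : ℝ) (hp : 2 < p) (hC : 0 < C) (ht : 0 ≤ t) (ht1 : t ≤ 1)
    (hy : 0 ≤ y) (hy1 : y ≤ 1) : t * phi p C y ≤ phi p C (t * y) := by
  have hcx := (convexOn_rpow (p := p - 1) (by linarith)).2
  have h1 := hcx (x := 1 + y / C) (show (0 : ℝ) ≤ 1 + y / C by positivity) (y := 1)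
    (show (0 : ℝ) ≤ 1 by norm_num) (a := t) (b := 1 - t) ht (by linarith) (by ring)
  have h2 := hcx (x := 1 - y) (show (0 : ℝ) ≤ 1 - y by linarith) (y := 1)
    (show (0 : ℝ) ≤ 1 by norm_num) (a := t) (b := 1 - t) ht (by linarith) (by ring)
  simp only [smul_eq_mul, one_rpow, mul_one] at h1 h2
  have e1 : t * (1 + y / C) + (1 - t) = 1 + t * y / C := by ring
  have e2 : t * (1 - y) + (1 - t) = 1 - t * y := by ring
  rw [e1] at h1
  rw [e2] at h2
  unfold phi
  have h3 : p / C * (1 + t * y / C) ^ (p - 1) ≤ p / C * (t * (1 + y / C) ^ (p - 1) + (1 - t)) := by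
    gcongr
  have h4 : p * (1 - t * y) ^ (p - 1) ≤ p * (t * (1 - y) ^ (p - 1) + (1 - t)) := by
    gcongr
  have e3 : p * (p - 2) * (t * y) / (3 * C) = t * (p * (p - 2) * y / (3 * C)) := by ring
  rw [e3]
  have e4 : p * (1 + 1 / C) = p + p / C := by ring
  rw [e4]
  nlinarith [h3, h4]

theorem JJ_nonneg (p C z : ℝ) (hp : 2 < p) (hC : 0 < C) (h1 : 0 ≤ JJ p C 1) (hz : 0 ≤ z)
    (hz1 : z ≤ 1) : 0 ≤ JJ p C z := by
  by_contra hneg
  push Not at hneg
  have h0 : JJ p C 0 = 0 := by
    simp [JJ]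
  have hz0 : 0 < z := by
    rcases hz.lt_or_eq with h | h
    · exact h
    · rw [← h, h0] at hneg
      exact absurd hneg (lt_irrefl _)
  have hz1' : z < 1 := by
    rcases hz1.lt_or_eq with h | h
    · exact h
    · rw [h] at hneg
      linarith
  have hcont : Continuous (JJ p C) :=
    continuous_iff_continuousAt.2 fun x => (hasDerivAt_JJ p C x hp hC).continuousAt
  obtain ⟨x, hx, hx'⟩ := exists_hasDerivAt_eq_slope (JJ p C) (phi p C) hz0 hcont.continuousOn
    fun x _ => hasDerivAt_JJ p C x hp hC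
  obtain ⟨y, hy, hy'⟩ := exists_hasDerivAt_eq_slope (JJ p C) (phi p C) hz1' hcont.continuousOn
    fun x _ => hasDerivAt_JJ p C x hp hC
  have hxneg : phi p C x < 0 := by
    rw [hx', h0]
    exact div_neg_of_neg_of_pos (by linarith) (by linarith)
  have hypos : 0 < phi p C y := by
    rw [hy']
    exact div_pos (by linarith) (by linarith)
  have hy0 : 0 < y := hz0.trans hy.1
  have hxy : x ≤ y := (hx.2.trans hy.1).le
  have h2 := phi_scale p C (x / y) y hp hC (div_nonneg hx.1.le hy0.le)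
    ((div_le_one hy0).2 hxy) hy0.le hy.2.le
  rw [div_mul_cancel₀ x hy0.ne'] at h2
  have h3 : 0 < x / y * phi p C y := mul_pos (div_pos hx.1 hy0) hypos
  linarith

/-- The lower bound for `-u`. -/
theorem neg_uu (p : ℝ) (hp : 2 < p) (hK : StK) (z : ℝ) (hz : 0 ≤ z) (hz1 : z ≤ 1) :
    x1 p * z * (DD p - pf (1 / p) * x1 p * z / 6) ≤ -uu (1 / p) (x1 p * (1 - z)) := by
  obtain ⟨-, -, hD, hx30, hx1, -, hXF, -, -, -, -, -⟩ := hK p hp
  have hF : pF (1 / p) = 1 + pf (1 / p) / 30 := rfl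
  have hf0 : 0 ≤ pf (1 / p) := by
    unfold pf
    rw [sub_nonneg]
    have : 1 / p ≤ 1 / 2 := one_div_le_one_div_of_le (by norm_num) hp.le
    linarith
  have hDD : DD p = 1 + pf (1 / p) * (1 / 15 + 41 / 1000 * x1 p ^ 2) := by
    unfold DD uu1 h1
    linear_combination (pf (1 / p) * (1 / 15 + 41 / 1000 * 4 * x1 p ^ 2)) * hXF
  have hu : -uu (1 / p) (x1 p * (1 - z)) = x1 p * z *
      (DD p - pf (1 / p) * z / 30 - pf (1 / p) * (41 / 1000) * x1 p ^ 2 * (1 - (1 - z) ^ 3)) := by
    rw [hDD]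
    unfold uu h0
    linear_combination (-(pf (1 / p) * x1 p * (1 - z) ^ 2 / 30
      + pf (1 / p) * (41 / 1000) * x1 p ^ 3 * (1 - z) ^ 4) - 1) * hXF + x1 p * hF
  rw [hu]
  set X := x1 p
  set f := pf (1 / p)
  have hX0 : 0 < X := by linarith
  have h1 : f * z / 30 + f * (41 / 1000) * X ^ 2 * (1 - (1 - z) ^ 3) ≤ f * X * z / 6 := by
    have h2 : 1 - (1 - z) ^ 3 ≤ 3 * z := by nlinarith [mul_nonneg hz hz, mul_nonneg (mul_nonneg hz hz) (sub_nonneg.2 hz1)]
    have h3 : f * (41 / 1000) * X ^ 2 * (1 - (1 - z) ^ 3) ≤ f * (41 / 1000) * X ^ 2 * (3 * z) := by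
      gcongr
    have h4 : 1 / 30 + 123 / 1000 * X ^ 2 ≤ X / 6 := by nlinarith
    have h5 : f * z * (1 / 30 + 123 / 1000 * X ^ 2) ≤ f * z * (X / 6) := by
      have := mul_nonneg hf0 hz
      gcongr
    nlinarith
  have h6 : 0 ≤ X * z := by positivity
  nlinarith [mul_le_mul_of_nonneg_left h1 h6]

theorem main (hK : StK) (hE : StE3a) : StE3 := by
  intro p hp r s hr hs hrs
  obtain ⟨hcc, hC1, hD, hx30, hx1, -, -, -, -, -, -, -⟩ := hK p hp
  have hE' := hE p hp
  set C := CC p with hCdef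
  set D := DD p with hDdef
  have hC0 : 0 < C := by linarith
  have hD0 : 0 < D := by linarith
  have hp0 : 0 < p := by linarith
  have hL : 0 < r + s := by linarith
  set L := r + s with hLdef
  set z : ℝ := 1 - (1 + C) * (r / L) with hzdef
  have hw0 : 0 ≤ r / L := div_nonneg hr hL.le
  have hz1 : z ≤ 1 := by
    have : 0 ≤ (1 + C) * (r / L) := by positivity
    linarith
  have hz0 : 0 ≤ z := by
    have : (1 + C) * (r / L) ≤ 1 := by
      rw [← mul_div_assoc, div_le_one hL]
      linarith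
    linarith
  -- `J`
  have hJ1 : 0 ≤ JJ p C 1 := by
    unfold JJ
    have e1 : (1 - 1 : ℝ) ^ p = 0 := by
      rw [sub_self, zero_rpow hp0.ne']
    rw [e1]
    have e2 : p * (p - 2) * 1 ^ 2 / (6 * C) = p * (p - 2) / (6 * C) := by ring
    rw [e2]
    linarith
  have hJ := JJ_nonneg p C z hp hC0 hJ1 hz0 hz1
  unfold JJ at hJ
  have hu := neg_uu p hp hK z hz0 hz1
  -- homogeneity
  have hX : x1 p * (1 + C) = p := by
    unfold x1
    rw [← hCdef]
    field_simp
  have hxw : p * (r / L) = x1 p * (1 - z) := by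
    rw [hzdef]
    linear_combination (-(r / L)) * hX
  set g : ℝ := C / (1 + C) with hg
  have hg0 : 0 < g := by positivity
  have er : C * r = L * g * (1 - z) := by
    rw [hzdef, hg]
    field_simp
    ring
  have es : s = L * g * (1 + z / C) := by
    rw [hzdef, hg]
    field_simp
    rw [hLdef]
    ring
  have e1 : C ^ p * r ^ p = L ^ p * g ^ p * (1 - z) ^ p := by
    rw [← mul_rpow hC0.le hr, er, mul_rpow (by positivity) (by linarith), mul_rpow hL.le hg0.le]
  have e2 : s ^ p = L ^ p * g ^ p * (1 + z / C) ^ p := by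
    conv_lhs => rw [es]
    rw [mul_rpow (by positivity) (by positivity), mul_rpow hL.le hg0.le]
  have e3 : cc p = g ^ p * ((1 + C) ^ 2 / (C * D)) := by
    unfold cc
    rw [← hCdef, ← hDdef, ← hg]
    have : g ^ p = g ^ (p - 1) * g := by
      rw [← rpow_add_one hg0.ne']
      congr 1
      ring
    rw [this, hg]
    field_simp
  unfold W1
  rw [← hLdef, hxw, e1, e2, e3]
  have hkey : (1 + C) ^ 2 / (C * D) * uu (1 / p) (x1 p * (1 - z)) ≤
      (1 - z) ^ p - (1 + z / C) ^ p := by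
    have hpos : 0 ≤ (1 + C) ^ 2 / (C * D) := by positivity
    have h1 := mul_le_mul_of_nonneg_left hu hpos
    have hpf : p * pf (1 / p) = p - 2 := by
      unfold pf
      field_simp
    have h2 : p * (1 + 1 / C) * z - p * (p - 2) * z ^ 2 / (6 * C) ≤
        (1 + C) ^ 2 / (C * D) * (x1 p * z * (D - pf (1 / p) * x1 p * z / 6)) := by
      have e4 : (1 + C) ^ 2 / (C * D) * (x1 p * z * (D - pf (1 / p) * x1 p * z / 6)) =
          p * (1 + 1 / C) * z - p * (p - 2) * z ^ 2 / (6 * C) * (1 / D) := by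
        have e5 : (1 + C) ^ 2 / (C * D) * (x1 p * z * (D - pf (1 / p) * x1 p * z / 6)) =
            (x1 p * (1 + C)) * (1 + C) * z / C
              - (x1 p * (1 + C)) ^ 2 * pf (1 / p) * z ^ 2 / (6 * C * D) := by
          field_simp
        rw [e5, hX]
        have e6 : p ^ 2 * pf (1 / p) = p * (p - 2) := by
          rw [← hpf]; ring
        rw [e6]
        field_simp
        ring
      rw [e4]
      have h3 : 1 / D ≤ 1 := by
        rw [div_le_one hD0]
        exact hD
      have h4 : 0 ≤ p * (p - 2) * z ^ 2 / (6 * C) := by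
        have : 0 ≤ p - 2 := by linarith
        positivity
      nlinarith [mul_le_mul_of_nonneg_left h3 h4]
    linarith
  have hpos2 : 0 ≤ L ^ p * g ^ p := by positivity
  calc g ^ p * ((1 + C) ^ 2 / (C * D)) * L ^ p * uu (1 / p) (x1 p * (1 - z))
      = (L ^ p * g ^ p) * ((1 + C) ^ 2 / (C * D) * uu (1 / p) (x1 p * (1 - z))) := by ring
    _ ≤ (L ^ p * g ^ p) * ((1 - z) ^ p - (1 + z / C) ^ p) :=
      mul_le_mul_of_nonneg_left hkey hpos2
    _ = _ := by ring

end Helper52.IW.M_E3
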