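import Pool.Agent.Helper85.IW.Statements
set_option autoImplicit false
set_option maxSynthPendingDepth 3

/-!
Module E3a: a one variable inequality (for helper85, MP_3dd6d4_an).
-/

namespace Helper52.IW.M_E3a

open Helper85.IW Real

/-- The case of small `k`. -/
theorem small (k b : ℝ) (hk : 0 < k) (hk1 : k ≤ 1) (hb : 0 ≤ b) (hb1 : b * (1 + k) ≤ 1) :
    (1 + b) ^ (k + 1) ≤ 2 + 5 * k / 6 := by
  have h1b : 0 < 1 + b := by linarith
  have e1 : (1 + b) ^ (k + 1) = (1 + b) ^ k * (1 + b) := by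
    rw [rpow_add h1b, rpow_one]
  have e2 : (1 + b) ^ k = (5 * (1 + b) / 7) ^ k * (7 / 5 : ℝ) ^ k := by
    rw [← mul_rpow (by positivity) (by positivity)]
    congr 1
    ring
  have i1 : (5 * (1 + b) / 7) ^ k ≤ 1 + k * (5 * (1 + b) / 7 - 1) := by
    have h := rpow_one_add_le_one_add_mul_self (s := 5 * (1 + b) / 7 - 1) (p := k)
      (by linarith) hk.le hk1
    have h' : 1 + (5 * (1 + b) / 7 - 1) = 5 * (1 + b) / 7 := by ring
    rwa [h'] at h
  have i2 : (7 / 5 : ℝ) ^ k ≤ 1 + 2 * k / 5 := by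
    have h := rpow_one_add_le_one_add_mul_self (s := 2 / 5) (p := k)
      (by norm_num) hk.le hk1
    have h' : (1 : ℝ) + 2 / 5 = 7 / 5 := by norm_num
    rw [h'] at h
    linarith
  have hb2 : b ≤ 1 / (1 + k) := by
    rw [le_div_iff₀ (by linarith)]
    exact hb1
  set y : ℝ := 1 / (1 + k) with hy
  have hy0 : 0 < y := by positivity
  have hy1 : y * (1 + k) = 1 := by
    rw [hy]
    field_simp
  have p1 : 0 ≤ (5 * (1 + b) / 7) ^ k := rpow_nonneg (by positivity) _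
  have p2 : 0 ≤ (7 / 5 : ℝ) ^ k := rpow_nonneg (by positivity) _
  have q1 : 0 ≤ 1 + k * (5 * (1 + b) / 7 - 1) := le_trans p1 i1
  have q2 : 0 ≤ 1 + k * (5 * (1 + y) / 7 - 1) := by
    refine q1.trans ?_
    gcongr
  rw [e1, e2]
  have s1 : (5 * (1 + b) / 7) ^ k * (7 / 5 : ℝ) ^ k * (1 + b) ≤
      (1 + k * (5 * (1 + b) / 7 - 1)) * (1 + 2 * k / 5) * (1 + b) := by
    gcongr
  have s2 : (1 + k * (5 * (1 + b) / 7 - 1)) * (1 + 2 * k / 5) * (1 + b) ≤
      (1 + k * (5 * (1 + y) / 7 - 1)) * (1 + 2 * k / 5) * (1 + y) := by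
    have q3 : 0 ≤ (1 + k * (5 * (1 + y) / 7 - 1)) * (1 + 2 * k / 5) :=
      mul_nonneg q2 (by positivity)
    gcongr
  refine s1.trans (s2.trans ?_)
  -- polynomial inequality
  have hpoly : 0 ≤ (2 + 5 * k / 6) * (1 + k) ^ 2 -
      ((1 + k) + k * (5 * (2 + k) / 7 - (1 + k))) * (1 + 2 * k / 5) * (2 + k) := by
    nlinarith [mul_nonneg hk.le (sub_nonneg.2 hk1), mul_nonneg hk.le hk.le,
      mul_nonneg (mul_nonneg hk.le hk.le) (sub_nonneg.2 hk1),
      mul_nonneg (mul_nonneg hk.le hk.le) hk.le,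
      mul_nonneg (mul_nonneg (mul_nonneg hk.le hk.le) hk.le) (sub_nonneg.2 hk1)]
  have e3 : (2 + 5 * k / 6) - (1 + k * (5 * (1 + y) / 7 - 1)) * (1 + 2 * k / 5) * (1 + y) =
      y ^ 2 * ((2 + 5 * k / 6) * (1 + k) ^ 2 -
      ((1 + k) + k * (5 * (2 + k) / 7 - (1 + k))) * (1 + 2 * k / 5) * (2 + k)) := by
    rw [hy]
    field_simp
    ring
  have : 0 ≤ (2 + 5 * k / 6) - (1 + k * (5 * (1 + y) / 7 - 1)) * (1 + 2 * k / 5) * (1 + y) := by
    rw [e3]
    positivity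
  linarith

/-- The case of large `k`. -/
theorem large (k C : ℝ) (hk : 1 ≤ k) (hC : 1 + k ≤ C) :
    (1 + 1 / C) ^ (k + 1) ≤ 2 + 5 * k / 6 := by
  have hC0 : 0 < C := by linarith
  have h1 : (1 : ℝ) ≤ 1 + 1 / C := by
    have : 0 < 1 / C := by positivity
    linarith
  have h2 : (1 + 1 / C) ^ (k + 1) ≤ (1 + 1 / C) ^ C := rpow_le_rpow_of_exponent_le h1 (by linarith)
  have h3 : (1 + 1 / C) ^ C ≤ exp 1 := by
    have h4 : 1 + 1 / C ≤ exp (1 / C) := by
      have := add_one_le_exp (1 / C)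
      linarith
    calc (1 + 1 / C) ^ C ≤ (exp (1 / C)) ^ C := rpow_le_rpow (by linarith) h4 hC0.le
      _ = exp (1 / C * C) := by rw [exp_mul]
      _ = exp 1 := by
        congr 1
        field_simp
  have h5 := exp_one_lt_d9
  linarith

theorem main : StE3a := by
  intro p hp
  set C := CC p with hCdef
  have hC : C = p - 1 + (p - 2) / 30 := rfl
  have hC1 : 1 < C := by rw [hC]; linarith
  have hC0 : 0 < C := by linarith
  obtain ⟨k, hk⟩ : ∃ k, k = p - 2 := ⟨_, rfl⟩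
  have hk0 : 0 < k := by linarith
  have hp' : p = k + 2 := by linarith
  have hCk : 1 + k ≤ C := by rw [hC]; linarith
  have hb0 : 0 < 1 / C := by positivity
  -- the reduced inequality
  have key : (1 + 1 / C) ^ (k + 1) ≤ 2 + 5 * k / 6 := by
    rcases le_total k 1 with h | h
    · refine small k (1 / C) hk0 h hb0.le ?_
      rw [one_div, inv_mul_le_iff₀ hC0]
      linarith
    · exact large k C h hCk
  have h1 : (0 : ℝ) < 1 + 1 / C := by linarith
  have e1 : (1 + 1 / C) ^ p = (1 + 1 / C) ^ (k + 1) * (1 + 1 / C) := by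
    rw [hp', show k + 2 = (k + 1) + 1 by ring, rpow_add h1, rpow_one]
  rw [e1]
  have s1 : (1 + 1 / C) ^ (k + 1) * (1 + 1 / C) ≤ (2 + 5 * k / 6) * (1 + 1 / C) := by gcongr
  refine s1.trans ?_
  have e2 : p * (1 + 1 / C) - p * (p - 2) / (6 * C) - (2 + 5 * k / 6) * (1 + 1 / C) =
      (k * (C + 1) - (k + 2) * k) / (6 * C) := by
    rw [hp']
    field_simp
    ring
  have h3 : 0 ≤ (k * (C + 1) - (k + 2) * k) / (6 * C) := by
    apply div_nonneg _ (by positivity)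
    nlinarith
  linarith

end Helper52.IW.M_E3a
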