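import Pool.Agent.Helper80.TM_LG

/-!
# MP_fc8395_an, module AO : derivatives of all orders of real-rooted trigonometric polynomials
-/

set_option autoImplicit false

open scoped ContDiff Topology
open Filter Set

namespace TM

lemma ao_re_iteratedDeriv {G : ℂ → ℂ} (hG : Differentiable ℂ G) (n : ℕ) :
    ∀ s : ℝ, iteratedDeriv n (fun s : ℝ => (G s).re) s = (iteratedDeriv n G s).re := by
  induction n with
  | zero => intro s; simp
  | succ n ih =>
    intro s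
    have hfun : iteratedDeriv n (fun s : ℝ => (G s).re) = fun s : ℝ => (iteratedDeriv n G s).re :=
      funext ih
    rw [iteratedDeriv_succ, hfun, iteratedDeriv_succ]
    have hc : ContDiff ℂ (n + 1 : ℕ) G := hG.contDiff
    have hd : DifferentiableAt ℂ (iteratedDeriv n G) (s : ℂ) :=
      (hc.differentiable_iteratedDeriv n (by exact_mod_cast Nat.lt_succ_self n)) _
    exact hd.hasDerivAt.real_of_complex.deriv

lemma ao_sin (w : ℂ) : ‖Complex.sin w‖ ≤ ‖w‖ * Real.exp ‖w‖ := by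
  have key : ∀ x : ℂ, ‖Complex.exp x - 1‖ ≤ ‖x‖ * Real.exp ‖x‖ := fun x => by
    simpa using Complex.norm_exp_sub_sum_le_norm_mul_exp x 1
  have h1 := key (-w * Complex.I)
  have h2 := key (w * Complex.I)
  have e1 : ‖-w * Complex.I‖ = ‖w‖ := by simp
  have e2 : ‖w * Complex.I‖ = ‖w‖ := by simp
  rw [e1] at h1
  rw [e2] at h2
  have h3 : Complex.sin w = ((Complex.exp (-w * Complex.I) - 1) -
      (Complex.exp (w * Complex.I) - 1)) * Complex.I / 2 := by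
    rw [Complex.sin]; ring
  rw [h3, norm_div, norm_mul, Complex.norm_I, mul_one]
  have h4 : ‖(2 : ℂ)‖ = 2 := by simp
  rw [h4, div_le_iff₀ (by norm_num)]
  have h5 := norm_sub_le (Complex.exp (-w * Complex.I) - 1) (Complex.exp (w * Complex.I) - 1)
  linarith

lemma ao_cos (w : ℂ) : ‖Complex.cos w - 1‖ ≤ 2 * (‖w / 2‖ * Real.exp ‖w / 2‖) ^ 2 := by
  have h1 : Complex.cos w - 1 = -2 * Complex.sin (w / 2) ^ 2 := by
    have := Complex.cos_two_mul (w / 2)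
    rw [mul_div_cancel₀ _ (two_ne_zero)] at this
    rw [this, Complex.cos_sq']
    ring
  rw [h1, norm_mul, norm_pow]
  have h2 : ‖(-2 : ℂ)‖ = 2 := by simp
  rw [h2]
  have := ao_sin (w / 2)
  gcongr

lemma ao_one_add (u : ℂ) : ‖1 + u‖ ≤ Real.exp (u.re + ‖u‖ ^ 2 / 2) := by
  have h1 : ‖1 + u‖ ^ 2 = 1 + (2 * u.re + ‖u‖ ^ 2) := by
    rw [← Complex.normSq_eq_norm_sq, ← Complex.normSq_eq_norm_sq, Complex.normSq_apply,
      Complex.normSq_apply]
    simp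
    ring
  have h2 : ‖1 + u‖ ^ 2 ≤ Real.exp (u.re + ‖u‖ ^ 2 / 2) ^ 2 := by
    rw [h1, ← Real.exp_nat_mul]
    have := Real.add_one_le_exp (2 * u.re + ‖u‖ ^ 2)
    have e : ((2 : ℕ) : ℝ) * (u.re + ‖u‖ ^ 2 / 2) = 2 * u.re + ‖u‖ ^ 2 := by push_cast; ring
    rw [e]
    linarith
  exact (pow_le_pow_iff_left₀ (norm_nonneg _) (Real.exp_pos _).le two_ne_zero).1 h2

lemma ao_prod_bound {N : ℕ} (a : Fin N → ℝ) {z : ℂ} {d K1 K2 R0 : ℝ} (hd : 0 ≤ d)
    (hK1 : 0 ≤ K1) (hK2 : 0 ≤ K2) (hz1 : ‖z‖ * d ≤ 1) (hz2 : ‖z‖ ≤ R0)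
    (hS1 : |∑ l, a l| ≤ K2 * d) (hS2 : ∑ l, (1 + a l ^ 2) ≤ K1 * d ^ 2) :
    ‖∏ l, (Complex.cos (z / 2) + a l * Complex.sin (z / 2))‖ ≤
      Real.exp (K1 * Real.exp R0 ^ 2 + K2 * Real.exp R0
        + Real.exp R0 ^ 4 * (R0 ^ 2 + 1) * K1) := by
  set M := Real.exp R0 with hM
  have hR0 : 0 ≤ R0 := (norm_nonneg z).trans hz2
  have hM1 : 1 ≤ M := Real.one_le_exp hR0
  set t := ‖z‖ with ht
  have ht0 : 0 ≤ t := norm_nonneg z
  -- bounds of sin, cos
  have hs : ‖Complex.sin (z / 2)‖ ≤ t * M := by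
    have h1 := ao_sin (z / 2)
    have h2 : ‖z / 2‖ = t / 2 := by simp [ht]
    rw [h2] at h1
    have h3 : Real.exp (t / 2) ≤ M := Real.exp_le_exp.2 (by linarith)
    refine h1.trans (mul_le_mul (by linarith) h3 (Real.exp_pos _).le ht0)
  have hc : ‖Complex.cos (z / 2) - 1‖ ≤ M ^ 2 * t ^ 2 := by
    have h1 := ao_cos (z / 2)
    have h2 : ‖z / 2 / 2‖ = t / 4 := by simp [ht]; ring
    rw [h2] at h1
    have h3 : Real.exp (t / 4) ≤ M := Real.exp_le_exp.2 (by linarith)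
    have h4 : t / 4 * Real.exp (t / 4) ≤ t / 4 * M := mul_le_mul_of_nonneg_left h3 (by linarith)
    have h5 : (t / 4 * Real.exp (t / 4)) ^ 2 ≤ (t / 4 * M) ^ 2 :=
      pow_le_pow_left₀ (by positivity) h4 2
    nlinarith [sq_nonneg (t * M)]
  set S := Complex.sin (z / 2) with hS
  set E := Complex.cos (z / 2) - 1 with hE
  have hE2 : ‖E‖ ^ 2 ≤ M ^ 4 * R0 ^ 2 * t ^ 2 := by
    have h1 : ‖E‖ ^ 2 ≤ (M ^ 2 * t ^ 2) ^ 2 := pow_le_pow_left₀ (norm_nonneg _) hc 2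
    have h2 : t ^ 2 ≤ R0 ^ 2 := pow_le_pow_left₀ ht0 hz2 2
    have h3 : (M ^ 2 * t ^ 2) ^ 2 = M ^ 4 * t ^ 2 * t ^ 2 := by ring
    rw [h3] at h1
    refine h1.trans ?_
    have h4 : M ^ 4 * t ^ 2 ≤ M ^ 4 * R0 ^ 2 := mul_le_mul_of_nonneg_left h2 (by positivity)
    exact mul_le_mul_of_nonneg_right h4 (by positivity)
  have hS2' : ‖S‖ ^ 2 ≤ M ^ 4 * t ^ 2 := by
    have h1 : ‖S‖ ^ 2 ≤ (t * M) ^ 2 := pow_le_pow_left₀ (norm_nonneg _) hs 2
    have h2 : M ^ 2 ≤ M ^ 4 := pow_le_pow_right₀ hM1 (by norm_num)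
    nlinarith [mul_le_mul_of_nonneg_left h2 (sq_nonneg t)]
  rw [norm_prod]
  have hfac : ∀ l, ‖Complex.cos (z / 2) + a l * S‖
      ≤ Real.exp ((E + a l * S).re + ‖E + a l * S‖ ^ 2 / 2) := by
    intro l
    have e : Complex.cos (z / 2) + a l * S = 1 + (E + a l * S) := by rw [hE]; ring
    rw [e]
    exact ao_one_add _
  refine (Finset.prod_le_prod (fun _ _ => norm_nonneg _) (fun l _ => hfac l)).trans ?_
  rw [← Real.exp_sum]
  refine Real.exp_le_exp.2 ?_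
  rw [Finset.sum_add_distrib]
  have htd : t ^ 2 * d ^ 2 ≤ 1 := by
    have : (t * d) ^ 2 ≤ 1 ^ 2 := pow_le_pow_left₀ (by positivity) hz1 2
    nlinarith
  have hS2t : (∑ l, (1 + a l ^ 2)) * t ^ 2 ≤ K1 := by
    calc (∑ l, (1 + a l ^ 2)) * t ^ 2 ≤ K1 * d ^ 2 * t ^ 2 :=
          mul_le_mul_of_nonneg_right hS2 (by positivity)
      _ = K1 * (t ^ 2 * d ^ 2) := by ring
      _ ≤ K1 * 1 := mul_le_mul_of_nonneg_left htd hK1
      _ = K1 := mul_one _
  have hN : (N : ℝ) ≤ ∑ l, (1 + a l ^ 2) := by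
    rw [Finset.sum_add_distrib]
    have : 0 ≤ ∑ l, a l ^ 2 := Finset.sum_nonneg fun _ _ => sq_nonneg _
    simp
    linarith
  have hre : ∑ l, (E + a l * S).re ≤ K1 * M ^ 2 + K2 * M := by
    have e1 : ∑ l, (E + a l * S).re = N * E.re + (∑ l, a l) * S.re := by
      simp only [Complex.add_re, Complex.re_ofReal_mul, Finset.sum_add_distrib, Finset.sum_const,
        Finset.card_univ, Fintype.card_fin, nsmul_eq_mul, ← Finset.sum_mul]
    rw [e1]
    have h1 : (N : ℝ) * E.re ≤ K1 * M ^ 2 := by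
      calc (N : ℝ) * E.re ≤ N * (M ^ 2 * t ^ 2) :=
            mul_le_mul_of_nonneg_left ((Complex.re_le_norm E).trans hc) (by positivity)
        _ ≤ (∑ l, (1 + a l ^ 2)) * (M ^ 2 * t ^ 2) :=
            mul_le_mul_of_nonneg_right hN (by positivity)
        _ = ((∑ l, (1 + a l ^ 2)) * t ^ 2) * M ^ 2 := by ring
        _ ≤ K1 * M ^ 2 := mul_le_mul_of_nonneg_right hS2t (by positivity)
    have h2 : (∑ l, a l) * S.re ≤ K2 * M := by
      calc (∑ l, a l) * S.re ≤ |(∑ l, a l) * S.re| := le_abs_self _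
        _ = |∑ l, a l| * |S.re| := abs_mul _ _
        _ ≤ (K2 * d) * (t * M) :=
            mul_le_mul hS1 ((Complex.abs_re_le_norm S).trans hs) (abs_nonneg _) (by positivity)
        _ = K2 * M * (t * d) := by ring
        _ ≤ K2 * M * 1 := mul_le_mul_of_nonneg_left hz1 (by positivity)
        _ = K2 * M := mul_one _
    linarith
  have hsq : ∑ l, ‖E + a l * S‖ ^ 2 / 2 ≤ M ^ 4 * (R0 ^ 2 + 1) * K1 := by
    have h1 : ∀ l, ‖E + a l * S‖ ^ 2 / 2 ≤ M ^ 4 * (R0 ^ 2 + 1) * ((1 + a l ^ 2) * t ^ 2) := by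
      intro l
      have h2 : ‖E + a l * S‖ ≤ ‖E‖ + |a l| * ‖S‖ := by
        refine (norm_add_le _ _).trans ?_
        rw [norm_mul, Complex.norm_real, Real.norm_eq_abs]
      have h3 : ‖E + a l * S‖ ^ 2 ≤ (‖E‖ + |a l| * ‖S‖) ^ 2 :=
        pow_le_pow_left₀ (norm_nonneg _) h2 2
      have h4 : (‖E‖ + |a l| * ‖S‖) ^ 2 ≤ 2 * ‖E‖ ^ 2 + 2 * (a l ^ 2 * ‖S‖ ^ 2) := by
        have : (|a l| * ‖S‖) ^ 2 = a l ^ 2 * ‖S‖ ^ 2 := by rw [mul_pow, sq_abs]
        nlinarith [sq_nonneg (‖E‖ - |a l| * ‖S‖)]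
      have h5 : a l ^ 2 * ‖S‖ ^ 2 ≤ a l ^ 2 * (M ^ 4 * t ^ 2) :=
        mul_le_mul_of_nonneg_left hS2' (sq_nonneg _)
      have h6 : 0 ≤ M ^ 4 * t ^ 2 * (1 + a l ^ 2 * R0 ^ 2) := by positivity
      nlinarith
    calc ∑ l, ‖E + a l * S‖ ^ 2 / 2
        ≤ ∑ l, M ^ 4 * (R0 ^ 2 + 1) * ((1 + a l ^ 2) * t ^ 2) :=
          Finset.sum_le_sum fun l _ => h1 l
      _ = M ^ 4 * (R0 ^ 2 + 1) * ((∑ l, (1 + a l ^ 2)) * t ^ 2) := by
          rw [← Finset.mul_sum, Finset.sum_mul]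
      _ ≤ M ^ 4 * (R0 ^ 2 + 1) * K1 := mul_le_mul_of_nonneg_left hS2t (by positivity)
  linarith

theorem RT_all {a c : ℝ} (ha : 0 ≤ a) (hac : a < c) (n : ℕ) : ∃ C : ℝ, 0 ≤ C ∧
    ∀ (m : ℕ) (f : ℝ → ℝ), 1 ≤ m → RT c m f → ∀ τ, |f τ| ≤ a →
      |iteratedDeriv n f τ| ≤ C * |deriv f τ| ^ n := by
  have hc : 0 < c := ha.trans_lt hac
  set δ : ℝ := (a + c) / 2 with hδ
  have hδ0 : 0 < δ := by rw [hδ]; linarith
  have hδc : δ < c := by rw [hδ]; linarith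
  set K1 : ℝ := 4 * (1 + 2 * c / (c - a)) / δ ^ 2 with hK1
  set K2 : ℝ := 2 / δ with hK2
  have hca : 0 < c - a := by linarith
  have hK1n : 0 ≤ K1 := by positivity
  have hK2n : 0 ≤ K2 := by positivity
  have hcc : 0 < c ^ 2 - a ^ 2 := by nlinarith
  set R0 : ℝ := Real.sqrt (2 / (c ^ 2 - a ^ 2)) with hR0
  set B0 : ℝ := Real.exp (K1 * Real.exp R0 ^ 2 + K2 * Real.exp R0
        + Real.exp R0 ^ 4 * (R0 ^ 2 + 1) * K1) with hB0
  have hB0n : 0 ≤ B0 := (Real.exp_pos _).le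
  refine ⟨n.factorial * (c + 2 * c * B0), by positivity, ?_⟩
  intro m f hm hf τ hτ
  have hτc : |f τ| < c := hτ.trans_lt hac
  obtain ⟨ht1, ht2⟩ := RT_tame hf hτc
  set d : ℝ := |deriv f τ| with hd
  have hd2 : deriv f τ ^ 2 = d ^ 2 := (sq_abs _).symm
  rw [hd2] at ht1 ht2
  have hfa : f τ ^ 2 ≤ a ^ 2 := by
    rw [← sq_abs (f τ)]
    exact pow_le_pow_left₀ (abs_nonneg _) hτ 2
  have hdlow : (c ^ 2 - a ^ 2) / 2 ≤ d ^ 2 := by
    have hm' : (1 : ℝ) ≤ m := by exact_mod_cast hm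
    have h1 : (c ^ 2 - a ^ 2) / 2 ≤ (m : ℝ) / 2 * (c ^ 2 - f τ ^ 2) := by nlinarith
    exact h1.trans ht2
  have hdpos : 0 < d := by
    rcases (abs_nonneg (deriv f τ)).lt_or_eq with h | h
    · exact h
    · exfalso
      rw [hd, ← h] at hdlow
      nlinarith
  -- choice of v
  obtain ⟨v, hv1, hv2⟩ : ∃ v : ℝ, |v| = δ ∧ δ ≤ |f τ - v| := by
    rcases le_total 0 (f τ) with h | h
    · exact ⟨-δ, by rw [abs_neg, abs_of_pos hδ0], by
        rw [sub_neg_eq_add, abs_of_nonneg (by linarith)]; linarith⟩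
    · exact ⟨δ, abs_of_pos hδ0, by rw [abs_of_nonpos (by linarith)]; linarith⟩
  have hvc : |v| < c := hv1 ▸ hδc
  have hne : f τ ≠ v := by
    intro h
    rw [h, sub_self, abs_zero] at hv2
    linarith
  have hfv : |f τ - v| ≤ 2 * c := by
    have := abs_sub (f τ) v
    linarith
  obtain ⟨w, hw1, hw2, hw3⟩ := RT_prod hf hvc hne
  have hfvp : 0 < |f τ - v| := hδ0.trans_le hv2
  -- first power sum
  have hS1 : |∑ l, w l| ≤ K2 * d := by
    have h1 : d = |f τ - v| * |∑ l, w l| / 2 := by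
      rw [hd, hw2, abs_div, abs_mul]; norm_num
    have h2 : δ * |∑ l, w l| ≤ 2 * d := by
      have := mul_le_mul_of_nonneg_right hv2 (abs_nonneg (∑ l, w l))
      linarith
    rw [hK2, div_mul_eq_mul_div, le_div_iff₀ hδ0]
    linarith
  have hf2 : |deriv (deriv f) τ| ≤ d ^ 2 / (c - a) := by
    rw [le_div_iff₀ hca]
    have : |deriv (deriv f) τ| * (c - a) ≤ |deriv (deriv f) τ| * (c - |f τ|) :=
      mul_le_mul_of_nonneg_left (by linarith) (abs_nonneg _)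
    linarith
  have hS2 : ∑ l, (1 + w l ^ 2) ≤ K1 * d ^ 2 := by
    have hSn : 0 ≤ ∑ l, (1 + w l ^ 2) := Finset.sum_nonneg fun _ _ => by positivity
    have h1 : δ ^ 2 * (∑ l, (1 + w l ^ 2)) ≤ 4 * (d ^ 2 + 2 * c * (d ^ 2 / (c - a))) := by
      have h2 : δ ^ 2 ≤ (f τ - v) ^ 2 := by
        rw [← sq_abs (f τ - v)]
        exact pow_le_pow_left₀ hδ0.le hv2 2
      have h3 : δ ^ 2 * (∑ l, (1 + w l ^ 2)) ≤ (f τ - v) ^ 2 * (∑ l, (1 + w l ^ 2)) :=
        mul_le_mul_of_nonneg_right h2 hSn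
      have h4 : (f τ - v) ^ 2 * (∑ l, (1 + w l ^ 2))
          = 4 * (d ^ 2 - (f τ - v) * deriv (deriv f) τ) := by
        rw [← hd2]; linarith
      have h5 : -((f τ - v) * deriv (deriv f) τ) ≤ 2 * c * (d ^ 2 / (c - a)) := by
        calc -((f τ - v) * deriv (deriv f) τ) ≤ |(f τ - v) * deriv (deriv f) τ| := neg_le_abs _
          _ = |f τ - v| * |deriv (deriv f) τ| := abs_mul _ _
          _ ≤ 2 * c * (d ^ 2 / (c - a)) := mul_le_mul hfv hf2 (abs_nonneg _) (by positivity)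
      linarith
    have h6 : K1 * d ^ 2 = 4 * (d ^ 2 + 2 * c * (d ^ 2 / (c - a))) / δ ^ 2 := by
      rw [hK1]; ring
    rw [h6, le_div_iff₀ (by positivity)]
    linarith
  -- the entire function
  set G : ℂ → ℂ := fun z => (v : ℂ) + ((f τ - v : ℝ) : ℂ) *
    ∏ l, (Complex.cos (z / 2) + w l * Complex.sin (z / 2)) with hG
  have hGd : Differentiable ℂ G := by
    have hfac : ∀ l, Differentiable ℂ (fun z : ℂ => Complex.cos (z / 2) + w l * Complex.sin (z / 2)) :=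
      fun l => by fun_prop
    have hpr : Differentiable ℂ
        (fun z : ℂ => ∏ l, (Complex.cos (z / 2) + w l * Complex.sin (z / 2))) :=
      Differentiable.fun_finsetProd fun l _ => hfac l
    exact (differentiable_const _).add ((differentiable_const _).mul hpr)
  have hfG : (fun s : ℝ => f (τ + s)) = fun s : ℝ => (G s).re := by
    funext s
    have h1 : G s = ((v + (f τ - v) * ∏ l, (Real.cos (s / 2) + w l * Real.sin (s / 2)) : ℝ) : ℂ) := by
      rw [hG]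
      push_cast
      rfl
    rw [h1, Complex.ofReal_re, ← hw1 s]
    ring
  have hit : iteratedDeriv n f τ = (iteratedDeriv n G (0 : ℂ)).re := by
    have h1 := congrFun (iteratedDeriv_comp_const_add n f τ) 0
    simp only [add_zero] at h1
    rw [← h1, hfG, ao_re_iteratedDeriv hGd n 0, Complex.ofReal_zero]
  rw [hit]
  refine (Complex.abs_re_le_norm _).trans ?_
  have hr : 0 < 1 / d := by positivity
  have hbd : ∀ z ∈ Metric.sphere (0 : ℂ) (1 / d), ‖G z‖ ≤ c + 2 * c * B0 := by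
    intro z hz
    have hz' : ‖z‖ = 1 / d := by simpa using hz
    have hz1 : ‖z‖ * d ≤ 1 := by
      rw [hz', one_div, inv_mul_cancel₀ hdpos.ne']
    have hz2 : ‖z‖ ≤ R0 := by
      rw [hz', hR0]
      refine Real.le_sqrt_of_sq_le ?_
      rw [div_pow, one_pow, div_le_div_iff₀ (by positivity) hcc]
      linarith
    have hP := ao_prod_bound w hdpos.le hK1n hK2n hz1 hz2 hS1 hS2
    rw [← hB0] at hP
    calc ‖G z‖ ≤ ‖(v : ℂ)‖ + ‖((f τ - v : ℝ) : ℂ) *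
          ∏ l, (Complex.cos (z / 2) + w l * Complex.sin (z / 2))‖ := norm_add_le _ _
      _ = |v| + |f τ - v| *
          ‖∏ l, (Complex.cos (z / 2) + w l * Complex.sin (z / 2))‖ := by
          rw [norm_mul, Complex.norm_real, Complex.norm_real, Real.norm_eq_abs, Real.norm_eq_abs]
      _ ≤ c + 2 * c * B0 := by
          have := mul_le_mul hfv hP (norm_nonneg _) (by positivity)
          linarith
  have hfin := Complex.norm_iteratedDeriv_le_of_forall_mem_sphere_norm_le n hr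
    hGd.diffContOnCl hbd
  refine hfin.trans (le_of_eq ?_)
  rw [one_div, inv_pow, div_inv_eq_mul]

end TM
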