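import Pool.Agent.Helper55.TM.Basic

/-!
# MP_fc8395_an, module TC : the tame closure
-/

set_option autoImplicit false

open scoped ContDiff Topology
open Filter Set

namespace TM

/-- The operator `u ↦ u' / f1'`. -/
noncomputable def tcOp (f1 u : ℝ → ℝ) : ℝ → ℝ := fun y => deriv u y / deriv f1 y

lemma tc_contDiffOn {f1 u : ℝ → ℝ} {O : Set ℝ} (hO : IsOpen O) (h1 : ContDiff ℝ ∞ f1)
    (hne : ∀ y ∈ O, deriv f1 y ≠ 0) (hu : ContDiffOn ℝ ∞ u O) :
    ContDiffOn ℝ ∞ (tcOp f1 u) O := by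
  have hu' : ContDiffOn ℝ ∞ (deriv u) O := hu.deriv_of_isOpen hO (by simp)
  have h1' : ContDiffOn ℝ ∞ (deriv f1) O := h1.contDiffOn.deriv_of_isOpen hO (by simp)
  exact hu'.div h1' hne

lemma tc_step (A C1 : ℕ → ℝ) (j : ℕ) : ∃ K : ℝ, 0 ≤ K ∧
    ∀ (f1 u : ℝ → ℝ) (O : Set ℝ) (y : ℝ), IsOpen O → y ∈ O →
      ContDiff ℝ ∞ f1 → (∀ y ∈ O, deriv f1 y ≠ 0) → ContDiffOn ℝ ∞ u O →
      (∀ j, |iteratedDeriv j f1 y| ≤ C1 j * |deriv f1 y| ^ j) →
      (∀ j, |iteratedDeriv j u y| ≤ A j * |deriv f1 y| ^ j) →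
      |iteratedDeriv j (tcOp f1 u) y| ≤ K * |deriv f1 y| ^ j := by
  induction j using Nat.strong_induction_on with
  | _ j ih =>
  choose! K hK0 hK using ih
  refine ⟨|A (j + 1)| + ∑ i ∈ Finset.range j, (j.choose i : ℝ) * K i * |C1 (j - i + 1)|,
    ?_, ?_⟩
  · refine add_nonneg (abs_nonneg _) (Finset.sum_nonneg fun i hi => ?_)
    have := hK0 i (Finset.mem_range.1 hi)
    positivity
  intro f1 u O y hO hy h1 hne hu hb1 hbu
  have hw : 0 < |deriv f1 y| := abs_pos.2 (hne y hy)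
  have hv : ContDiffOn ℝ ∞ (tcOp f1 u) O := tc_contDiffOn hO h1 hne hu
  have hOy : O ∈ 𝓝 y := hO.mem_nhds hy
  have hva : ContDiffAt ℝ j (tcOp f1 u) y :=
    ((hv.contDiffAt hOy).of_le (by exact_mod_cast le_top))
  have hwa : ContDiffAt ℝ j (deriv f1) y := by
    have h1' : ContDiffOn ℝ ∞ (deriv f1) O := h1.contDiffOn.deriv_of_isOpen hO (by simp)
    exact (h1'.contDiffAt hOy).of_le (by exact_mod_cast le_top)
  have heq : deriv u =ᶠ[𝓝 y] (tcOp f1 u) * deriv f1 := by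
    filter_upwards [hOy] with z hz
    simp only [Pi.mul_apply, tcOp]
    rw [div_mul_cancel₀ _ (hne z hz)]
  have hL : iteratedDeriv (j + 1) u y
      = ∑ i ∈ Finset.range j, (j.choose i : ℝ) * iteratedDeriv i (tcOp f1 u) y *
          iteratedDeriv (j - i + 1) f1 y + iteratedDeriv j (tcOp f1 u) y * deriv f1 y := by
    rw [iteratedDeriv_succ', heq.iteratedDeriv_eq j, iteratedDeriv_mul hva hwa,
      Finset.sum_range_succ]
    simp only [Nat.choose_self, Nat.cast_one, one_mul, Nat.sub_self, iteratedDeriv_zero,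
      iteratedDeriv_succ']
  have hsum : |∑ i ∈ Finset.range j, (j.choose i : ℝ) * iteratedDeriv i (tcOp f1 u) y *
          iteratedDeriv (j - i + 1) f1 y|
      ≤ (∑ i ∈ Finset.range j, (j.choose i : ℝ) * K i * |C1 (j - i + 1)|) *
        |deriv f1 y| ^ (j + 1) := by
    rw [Finset.sum_mul]
    refine (Finset.abs_sum_le_sum_abs _ _).trans (Finset.sum_le_sum fun i hi => ?_)
    have hij := Finset.mem_range.1 hi
    have e1 := hK i hij f1 u O y hO hy h1 hne hu hb1 hbu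
    have e2 := hb1 (j - i + 1)
    have e3 : C1 (j - i + 1) * |deriv f1 y| ^ (j - i + 1)
        ≤ |C1 (j - i + 1)| * |deriv f1 y| ^ (j - i + 1) :=
      mul_le_mul_of_nonneg_right (le_abs_self _) (by positivity)
    rw [abs_mul, abs_mul, Nat.abs_cast]
    have e4 : |deriv f1 y| ^ (j + 1) = |deriv f1 y| ^ i * |deriv f1 y| ^ (j - i + 1) := by
      rw [← pow_add]; congr 1; omega
    calc (j.choose i : ℝ) * |iteratedDeriv i (tcOp f1 u) y| * |iteratedDeriv (j - i + 1) f1 y|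
        ≤ (j.choose i : ℝ) * (K i * |deriv f1 y| ^ i) *
          (|C1 (j - i + 1)| * |deriv f1 y| ^ (j - i + 1)) := by
          have hKi := hK0 i hij
          refine mul_le_mul ?_ (e2.trans e3) (abs_nonneg _) (by positivity)
          exact mul_le_mul_of_nonneg_left e1 (by positivity)
      _ = (j.choose i : ℝ) * K i * |C1 (j - i + 1)| * |deriv f1 y| ^ (j + 1) := by
          rw [e4]; ring
  have hmain : |iteratedDeriv j (tcOp f1 u) y| * |deriv f1 y|
      ≤ (|A (j + 1)| + ∑ i ∈ Finset.range j, (j.choose i : ℝ) * K i * |C1 (j - i + 1)|) *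
        |deriv f1 y| ^ (j + 1) := by
    rw [← abs_mul]
    have e5 : iteratedDeriv j (tcOp f1 u) y * deriv f1 y = iteratedDeriv (j + 1) u y
      - ∑ i ∈ Finset.range j, (j.choose i : ℝ) * iteratedDeriv i (tcOp f1 u) y *
          iteratedDeriv (j - i + 1) f1 y := by rw [hL]; ring
    rw [e5, add_mul]
    refine (abs_sub _ _).trans (add_le_add ?_ hsum)
    exact (hbu (j + 1)).trans (mul_le_mul_of_nonneg_right (le_abs_self _) (by positivity))
  rw [pow_succ, ← mul_assoc] at hmain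
  exact le_of_mul_le_mul_right hmain hw

lemma tc_iter (C1 C2 : ℕ → ℝ) (n : ℕ) : ∃ A : ℕ → ℝ, ∀ (f1 f2 : ℝ → ℝ) (y : ℝ),
    ContDiff ℝ ∞ f1 → ContDiff ℝ ∞ f2 → deriv f1 y ≠ 0 →
    (∀ j, |iteratedDeriv j f1 y| ≤ C1 j * |deriv f1 y| ^ j) →
    (∀ j, |iteratedDeriv j f2 y| ≤ C2 j * |deriv f1 y| ^ j) →
    (ContDiffOn ℝ ∞ ((tcOp f1)^[n] f2) {z | deriv f1 z ≠ 0} ∧
    ∀ j, |iteratedDeriv j ((tcOp f1)^[n] f2) y| ≤ A j * |deriv f1 y| ^ j) := by
  induction n with
  | zero =>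
    exact ⟨C2, fun f1 f2 y _ h2 _ _ hb2 => ⟨h2.contDiffOn, hb2⟩⟩
  | succ n ih =>
    obtain ⟨A, hA⟩ := ih
    choose K hK0 hK using fun j => tc_step A C1 j
    refine ⟨K, fun f1 f2 y h1 h2 hy hb1 hb2 => ?_⟩
    obtain ⟨hc, hb⟩ := hA f1 f2 y h1 h2 hy hb1 hb2
    have hcont : Continuous (deriv f1) := h1.continuous_deriv (by simp)
    have hO : IsOpen {z | deriv f1 z ≠ 0} := isOpen_ne_fun hcont continuous_const
    rw [Function.iterate_succ_apply']
    exact ⟨tc_contDiffOn hO h1 (fun _ h => h) hc,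
      fun j => hK j f1 _ _ y hO hy h1 (fun _ h => h) hc hb1 hb⟩

theorem tame_closure (C1 C2 : ℕ → ℝ) (n : ℕ) : ∃ C : ℝ, ∀ (f1 f2 g : ℝ → ℝ) (I : Set ℝ),
    IsOpen I → ContDiff ℝ ∞ f1 → ContDiff ℝ ∞ f2 → ContDiffOn ℝ ∞ g I →
    (∀ x ∈ I, f1 (g x) = x) → (∀ x ∈ I, deriv f1 (g x) ≠ 0) →
    (∀ x ∈ I, ∀ j, |iteratedDeriv j f1 (g x)| ≤ C1 j * |deriv f1 (g x)| ^ j) →
    (∀ x ∈ I, ∀ j, |iteratedDeriv j f2 (g x)| ≤ C2 j * |deriv f1 (g x)| ^ j) →
    ∀ x ∈ I, |iteratedDeriv n (fun x => f2 (g x)) x| ≤ C := by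
  choose A hA using fun n => tc_iter C1 C2 n
  refine ⟨A n 0, fun f1 f2 g I hI h1 h2 hg hfg hne hb1 hb2 => ?_⟩
  have hder : ∀ m, ∀ x ∈ I, iteratedDeriv m (fun x => f2 (g x)) x = ((tcOp f1)^[m] f2) (g x) := by
    intro m
    induction m with
    | zero => intro x _; simp
    | succ m ih =>
      intro x hx
      have hIx : I ∈ 𝓝 x := hI.mem_nhds hx
      rw [iteratedDeriv_succ, Function.iterate_succ_apply']
      have heq : iteratedDeriv m (fun x => f2 (g x)) =ᶠ[𝓝 x]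
          fun x => ((tcOp f1)^[m] f2) (g x) := by
        filter_upwards [hIx] with z hz using ih z hz
      rw [heq.deriv_eq]
      obtain ⟨hc, -⟩ := hA m f1 f2 (g x) h1 h2 (hne x hx) (hb1 x hx) (hb2 x hx)
      have hcont : Continuous (deriv f1) := h1.continuous_deriv (by simp)
      have hO : IsOpen {z | deriv f1 z ≠ 0} := isOpen_ne_fun hcont continuous_const
      have hdV : DifferentiableAt ℝ ((tcOp f1)^[m] f2) (g x) :=
        (hc.contDiffAt (hO.mem_nhds (hne x hx))).differentiableAt (by simp)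
      have hdg : DifferentiableAt ℝ g x := (hg.contDiffAt hIx).differentiableAt (by simp)
      have hdf : DifferentiableAt ℝ f1 (g x) := (h1.differentiable (by simp)) _
      have hg1 : HasDerivAt (fun x => f1 (g x)) (deriv f1 (g x) * deriv g x) x :=
        hdf.hasDerivAt.comp x hdg.hasDerivAt
      have hg2 : HasDerivAt (fun x => f1 (g x)) 1 x := by
        refine (hasDerivAt_id x).congr_of_eventuallyEq ?_
        filter_upwards [hIx] with z hz using hfg z hz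
      have hprod : deriv f1 (g x) * deriv g x = 1 := hg1.unique hg2
      have hV : HasDerivAt (fun x => ((tcOp f1)^[m] f2) (g x))
          (deriv ((tcOp f1)^[m] f2) (g x) * deriv g x) x :=
        hdV.hasDerivAt.comp x hdg.hasDerivAt
      rw [hV.deriv]
      have hd : deriv f1 (g x) ≠ 0 := hne x hx
      simp only [tcOp]
      rw [eq_div_iff hd, mul_assoc, mul_comm (deriv g x), hprod, mul_one]
  intro x hx
  rw [hder n x hx]
  obtain ⟨-, hb⟩ := hA n f1 f2 (g x) h1 h2 (hne x hx) (hb1 x hx) (hb2 x hx)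
  simpa using hb 0

end TM
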